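import Pool.Agent.T9h29.HC.Spec

/-! Project HC, piece TH: the second derivative of the theta function. -/

set_option autoImplicit false

namespace Pool.Agent.T9h75.HC

open Complex Filter Topology MeasureTheory Set
open Pool.Agent.R304.GR (vt psi re_pos gamma_an)
open H370.DG

noncomputable section

/-- the digamma function -/
def dg (s : ℂ) : ℂ := deriv Gamma s / Gamma s

theorem dg_an : AnalyticOnNhd ℂ dg {s : ℂ | 0 < s.re} := by
  intro s hs
  exact (gamma_an.deriv s hs).div (gamma_an s hs) (Gamma_ne_zero_of_re_pos hs)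

/-- the derivative -/
def qq (t : ℝ) : ℝ := (deriv dg (1 / 4 + I * t / 2) * (I / 2)).re / 2

theorem path_deriv (t : ℝ) : HasDerivAt (fun u : ℝ => (1 / 4 + I * u / 2 : ℂ)) (I / 2) t := by
  have h3 : HasDerivAt (fun u : ℝ => (u : ℂ)) 1 t := Complex.ofRealCLM.hasDerivAt
  have h4 := ((h3.const_mul I).div_const 2).const_add (1 / 4 : ℂ)
  simpa using h4

theorem psi_deriv (t : ℝ) : HasDerivAt psi (qq t) t := by
  have h1 : HasDerivAt dg (deriv dg (1 / 4 + I * t / 2)) (1 / 4 + I * t / 2) :=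
    (dg_an _ (re_pos t)).differentiableAt.hasDerivAt
  have h5 := HasDerivAt.comp (h₂ := dg) t h1 (path_deriv t)
  have h6 := (Complex.reCLM.hasFDerivAt.comp_hasDerivAt t h5)
  have h7 := (h6.div_const 2).sub_const (Real.log Real.pi / 2)
  exact h7

theorem qq_cont : Continuous qq := by
  have h2 : Continuous fun u : ℝ => deriv dg (1 / 4 + I * u / 2) := by
    rw [continuous_iff_continuousAt]
    intro u
    have h3 : ContinuousAt (deriv dg) (1 / 4 + I * u / 2) :=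
      (dg_an.deriv _ (re_pos u)).continuousAt
    exact ContinuousAt.comp (f := fun u : ℝ => (1 / 4 + I * u / 2 : ℂ)) h3 (by fun_prop)
  unfold qq
  exact (Complex.continuous_re.comp (h2.mul continuous_const)).div_const 2

/-- the terms -/
def uu (n : ℕ) (t : ℝ) : ℝ := -(((n : ℝ) + 1 / 4) / (((n : ℝ) + 1 / 4) ^ 2 + t ^ 2 / 4))

theorem re_inv (n : ℕ) (t : ℝ) : (-(1 / ((1 / 4 + I * t / 2 : ℂ) + n))).re = uu n t := by
  have e1 : ((1 / 4 + I * t / 2 : ℂ) + n) = (((n : ℝ) + 1 / 4 : ℝ) : ℂ) + ((t / 2 : ℝ) : ℂ) * I := by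
    push_cast
    ring
  rw [e1, neg_re, one_div, inv_re, add_re, ofReal_re, re_ofReal_mul, I_re, mul_zero, add_zero,
    normSq_add_mul_I]
  unfold uu
  rw [show (t / 2) ^ 2 = t ^ 2 / 4 by ring]

theorem uu_mono (n : ℕ) {x y : ℝ} (hx : 0 ≤ x) (hxy : x ≤ y) : uu n x ≤ uu n y := by
  unfold uu
  have hn : (0 : ℝ) ≤ n := Nat.cast_nonneg n
  have h1 : x ^ 2 ≤ y ^ 2 := by nlinarith
  apply neg_le_neg
  apply div_le_div_of_nonneg_left (by linarith) (by positivity)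
  linarith

theorem psi_diff {x y : ℝ} (hx : 0 ≤ x) (hxy : x ≤ y) (M : ℕ) :
    (∑ n ∈ Finset.range (M + 2), uu n y) / 2 - (∑ n ∈ Finset.range (M + 2), uu n x) / 2 ≤
      psi y - psi x := by
  have key : ∀ t : ℝ, psi t = (uu 0 t + uu 1 t +
      ∑' n, (gd n (1 / 4 + I * t / 2)).re) / 2 - Real.log Real.pi / 2 := by
    intro t
    have h1 := logDeriv_Gamma (re_pos t)
    rw [logDeriv_apply] at h1
    unfold psi
    rw [h1, add_re, sub_re]
    have hs : Summable fun n => gd n (1 / 4 + I * t / 2) := summable_gd (by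
      have := re_pos t
      linarith)
    rw [Complex.re_tsum hs, ← re_inv 0 t, ← re_inv 1 t, Nat.cast_zero, add_zero, Nat.cast_one,
      neg_re, neg_re]
    ring
  have hg : ∀ (n : ℕ) (t : ℝ), (gd n (1 / 4 + I * t / 2)).re =
      Real.log ((n + 2 : ℝ) / (n + 1)) + uu (n + 2) t := by
    intro n t
    rw [← re_inv (n + 2) t]
    unfold gd
    rw [sub_re, ofReal_re, neg_re]
    push_cast
    ring
  have hsum : ∀ t : ℝ, Summable fun n => (gd n (1 / 4 + I * t / 2)).re := fun t =>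
    (Complex.hasSum_re (summable_gd (by have := re_pos t; linarith)).hasSum).summable
  have h2 : ∑ n ∈ Finset.range M, ((gd n (1 / 4 + I * y / 2)).re - (gd n (1 / 4 + I * x / 2)).re) ≤
      ∑' n, ((gd n (1 / 4 + I * y / 2)).re - (gd n (1 / 4 + I * x / 2)).re) := by
    refine Summable.sum_le_tsum _ (fun n _ => ?_) ((hsum y).sub (hsum x))
    rw [hg, hg]
    have := uu_mono (n + 2) hx hxy
    linarith
  rw [(hsum y).tsum_sub (hsum x)] at h2
  have h3 : ∑ n ∈ Finset.range M, ((gd n (1 / 4 + I * y / 2)).re - (gd n (1 / 4 + I * x / 2)).re) =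
      ∑ n ∈ Finset.range M, uu (n + 2) y - ∑ n ∈ Finset.range M, uu (n + 2) x := by
    rw [← Finset.sum_sub_distrib]
    refine Finset.sum_congr rfl fun n _ => ?_
    rw [hg, hg]
    ring
  rw [h3] at h2
  have h4 : ∀ t, ∑ n ∈ Finset.range (M + 2), uu n t =
      ∑ n ∈ Finset.range M, uu (n + 2) t + uu 0 t + uu 1 t := by
    intro t
    rw [Finset.sum_range_succ', Finset.sum_range_succ']
    simp only [zero_add, add_assoc, one_add_one_eq_two]
    ring
  rw [h4, h4, key x, key y]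
  linarith

theorem uu_deriv (n : ℕ) (t : ℝ) : HasDerivAt (uu n)
    (((n : ℝ) + 1 / 4) * (t / 2) / (((n : ℝ) + 1 / 4) ^ 2 + t ^ 2 / 4) ^ 2) t := by
  have hn : (0 : ℝ) ≤ n := Nat.cast_nonneg n
  have hne : ((n : ℝ) + 1 / 4) ^ 2 + t ^ 2 / 4 ≠ 0 := by positivity
  have h1 : HasDerivAt (fun t : ℝ => ((n : ℝ) + 1 / 4) ^ 2 + t ^ 2 / 4) (t / 2) t := by
    have := ((hasDerivAt_pow 2 t).div_const 4).const_add (((n : ℝ) + 1 / 4) ^ 2)
    refine this.congr_deriv ?_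
    simp
    ring
  have h2 := ((h1.inv hne).const_mul ((n : ℝ) + 1 / 4)).neg
  refine (h2.congr_deriv ?_)
  field_simp

/-- derivatives of functions with ordered increments -/
theorem deriv_le {f g : ℝ → ℝ} {f' g' t : ℝ} (hf : HasDerivAt f f' t) (hg : HasDerivAt g g' t)
    (h : ∀ y, t ≤ y → g y - g t ≤ f y - f t) : g' ≤ f' := by
  have h1 := (hf.sub hg).hasDerivWithinAt (s := Ioi t)
  rw [hasDerivWithinAt_iff_tendsto_slope' (by simp)] at h1
  have h2 : 0 ≤ f' - g' := by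
    refine ge_of_tendsto h1 ?_
    filter_upwards [self_mem_nhdsWithin] with y hy
    have hy' : t < y := hy
    rw [slope_def_field]
    have := h y hy'.le
    apply div_nonneg _ (by linarith)
    simp only [Pi.sub_apply]
    linarith
  linarith

theorem qq_ge {t : ℝ} (ht : 1 ≤ t) : 1 / 64 / t ≤ qq t := by
  obtain ⟨M, hM1, hM2⟩ : ∃ M : ℕ, t ≤ M + 1 ∧ (M : ℝ) ≤ t := ⟨⌊t⌋₊, by
    have := Nat.lt_floor_add_one t
    linarith, Nat.floor_le (by linarith)⟩
  set P : ℝ → ℝ := fun t => (∑ n ∈ Finset.range (M + 2), uu n t) / 2 with hP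
  have hPd : HasDerivAt P ((∑ n ∈ Finset.range (M + 2),
      (((n : ℝ) + 1 / 4) * (t / 2) / (((n : ℝ) + 1 / 4) ^ 2 + t ^ 2 / 4) ^ 2)) / 2) t :=
    (HasDerivAt.fun_sum fun n _ => uu_deriv n t).div_const 2
  have h1 := deriv_le (psi_deriv t) hPd fun y hy => psi_diff (by linarith) hy M
  refine le_trans ?_ h1
  have h2 : ∀ n ∈ Finset.range (M + 1), ((n : ℝ) + 1 / 4) / (8 * t ^ 3) ≤
      ((n : ℝ) + 1 / 4) * (t / 2) / (((n : ℝ) + 1 / 4) ^ 2 + t ^ 2 / 4) ^ 2 := by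
    intro n hn
    have hn0 : (0 : ℝ) ≤ n := Nat.cast_nonneg n
    have hn1 : (n : ℝ) ≤ t := by
      rw [Finset.mem_range] at hn
      have : (n : ℝ) ≤ M := by exact_mod_cast Nat.lt_succ_iff.mp hn
      linarith
    have h3 : ((n : ℝ) + 1 / 4) ^ 2 + t ^ 2 / 4 ≤ 2 * t ^ 2 := by nlinarith
    have h4 : (((n : ℝ) + 1 / 4) ^ 2 + t ^ 2 / 4) ^ 2 ≤ (2 * t ^ 2) ^ 2 :=
      pow_le_pow_left₀ (by positivity) h3 2
    have h5 : ((n : ℝ) + 1 / 4) / (8 * t ^ 3) = ((n : ℝ) + 1 / 4) * (t / 2) / (2 * t ^ 2) ^ 2 := by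
      field_simp
      ring
    rw [h5]
    exact div_le_div_of_nonneg_left (by positivity) (by positivity) h4
  have h6 : ∑ n ∈ Finset.range (M + 1), ((n : ℝ) + 1 / 4) / (8 * t ^ 3) ≤
      ∑ n ∈ Finset.range (M + 2),
        ((n : ℝ) + 1 / 4) * (t / 2) / (((n : ℝ) + 1 / 4) ^ 2 + t ^ 2 / 4) ^ 2 := by
    refine (Finset.sum_le_sum h2).trans ?_
    rw [Finset.sum_range_succ _ (M + 1)]
    have : 0 ≤ (((M + 1 : ℕ) : ℝ) + 1 / 4) * (t / 2) /
        ((((M + 1 : ℕ) : ℝ) + 1 / 4) ^ 2 + t ^ 2 / 4) ^ 2 := by positivity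
    linarith
  have h7 : ∀ m : ℕ, ∑ n ∈ Finset.range m, ((n : ℝ) + 1 / 4) = (m : ℝ) ^ 2 / 2 - m / 4 := by
    intro m
    induction m with
    | zero => simp
    | succ m ih =>
      rw [Finset.sum_range_succ, ih]
      push_cast
      ring
  rw [← Finset.sum_div, h7] at h6
  push_cast at h6
  have h8 : t ^ 2 / 4 ≤ ((M : ℝ) + 1) ^ 2 / 2 - ((M : ℝ) + 1) / 4 := by
    have hM0 : (0 : ℝ) ≤ M := Nat.cast_nonneg M
    nlinarith
  have h9 : t ^ 2 / 4 / (8 * t ^ 3) ≤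
      (((M : ℝ) + 1) ^ 2 / 2 - ((M : ℝ) + 1) / 4) / (8 * t ^ 3) := by
    gcongr
  have h10 : t ^ 2 / 4 / (8 * t ^ 3) = 2 * (1 / 64 / t) := by
    field_simp
    ring
  linarith

theorem th : Pool.Agent.T9h29.HC.S_TH :=
  ⟨1 / 64, by norm_num, qq, qq_cont.continuousOn, fun t ht => ⟨psi_deriv t, qq_ge ht⟩⟩

end

end Pool.Agent.T9h75.HC
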